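import Pool.Agent.MWT.Stmts

/-!
# Row TG3 of squad MWT (helper96)
-/

set_option autoImplicit false

namespace Pool.Agent.MWT.H96

open Pool.Agent.Helper14_MV Pool.Agent.Helper2_MV Pool.Agent.MVD Pool.Agent.MWT

variable {β : FIC}

/-- the map of `sh` -/
def shm (n a : ℕ) : List ℕ := if a % 3 = 0 ∧ 42 ≤ a then P (n + 1) a else [a]

theorem sh_app (n : ℕ) (u v : List ℕ) : sh n (u ++ v) = sh n u ++ sh n v := List.flatMap_append

theorem sh_cons_lt (n a : ℕ) (w : List ℕ) (h : a < 42) : sh n (a :: w) = a :: sh n w := by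
  change (if a % 3 = 0 ∧ 42 ≤ a then P (n + 1) a else [a]) ++ sh n w = a :: sh n w
  rw [if_neg (by omega)]
  rfl

theorem sh_mem {n : ℕ} {w : List ℕ} {a : ℕ} (h : a ∈ sh n w) : a ∈ w := by
  unfold sh at h
  rw [List.mem_flatMap] at h
  obtain ⟨b, hb, h'⟩ := h
  by_cases hc : b % 3 = 0 ∧ 42 ≤ b
  · rw [if_pos hc] at h'
    rw [List.eq_of_mem_replicate h']
    exact hb
  · rw [if_neg hc, List.mem_singleton] at h'
    rw [h']
    exact hb

theorem bw_flat (g : ℕ → List ℕ) (hg : ∀ r, g (3 * r + 2) = [3 * r + 2]) (R : List ℕ)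
    (B : ℕ → List ℕ) : (Bw R B).flatMap g = Bw R (fun r => (B r).flatMap g) := by
  induction R with
  | nil => rfl
  | cons r R ih =>
    have e1 : ∀ B : ℕ → List ℕ, Bw (r :: R) B = (B r ++ [3 * r + 2]) ++ Bw R B := fun B => rfl
    rw [e1, e1, List.flatMap_append, ih, List.flatMap_append]
    congr 2
    rw [List.flatMap_cons, hg, List.flatMap_nil, List.append_nil]

theorem sh_bw (n : ℕ) (R : List ℕ) (B : ℕ → List ℕ) : sh n (Bw R B) = Bw R (fun r => sh n (B r)) := by
  refine bw_flat _ (fun r => ?_) R B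
  rw [if_neg (by omega)]

theorem bw_ext (R : List ℕ) (B B' : ℕ → List ℕ) (h : ∀ r ∈ R, B r = B' r) : Bw R B = Bw R B' := by
  unfold Bw
  exact List.flatMap_congr (fun r hr => by rw [h r hr])

/-- `0` becomes `3` -/
def r03 (a : ℕ) : List ℕ := if a = 0 then [3] else [a]

theorem r03_id (w : List ℕ) (h : 0 ∉ w) : w.flatMap r03 = w := by
  induction w with
  | nil => rfl
  | cons a w ih =>
    rw [List.mem_cons, not_or] at h
    rw [List.flatMap_cons, ih h.2]
    unfold r03
    rw [if_neg (fun h' => h.1 h'.symm)]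
    rfl

theorem dl_flat (x : ℕ) (g : ℕ → List ℕ) (w : List ℕ) :
    dl x (w.flatMap g) = w.flatMap (fun a => dl x (g a)) := by
  induction w with
  | nil => rfl
  | cons a w ih =>
    rw [List.flatMap_cons, List.flatMap_cons, ← ih]
    unfold dl
    rw [List.filter_append]

theorem dl_id (x : ℕ) (w : List ℕ) (h : x ∉ w) : dl x w = w := by
  unfold dl
  rw [List.filter_eq_self]
  intro a ha
  rw [decide_eq_true_eq]
  exact fun h' => h (h' ▸ ha)

theorem pj_e (e f : ℕ) (κ : ℕ → ℕ) (he : e = 0 ∨ e = 3 ∨ e = 6) : pj e f κ e = [0] := by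
  unfold pj
  rw [if_pos (by omega), if_pos (by omega), if_pos rfl]

theorem pj_f (e f : ℕ) (κ : ℕ → ℕ) (hf : f = 0 ∨ f = 3 ∨ f = 6) (hef : e ≠ f) :
    pj e f κ f = [3] := by
  unfold pj
  rw [if_pos (by omega), if_pos (by omega), if_neg (fun h => hef h.symm), if_pos rfl]

/-- only `f` is mapped to `3` -/
theorem pj_3 {e f : ℕ} {κ : ℕ → ℕ} {a : ℕ} (h : 3 ∈ pj e f κ a) : a = f := by
  unfold pj at h
  split_ifs at h with h1 h2 h3 h4 h5 h6 h7
  · simp at h
  · exact h4
  · simp at h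
  · rw [List.mem_singleton] at h
    omega
  · simp at h
  · rw [List.mem_singleton] at h
    omega
  · simp at h
  · rw [List.mem_singleton] at h
    omega

theorem dl3_pj (e f : ℕ) (κ : ℕ → ℕ) (hf : f = 0 ∨ f = 3 ∨ f = 6) (hef : e ≠ f) (a : ℕ) :
    dl 3 (pj e f κ a) = pj e 1 κ a := by
  by_cases ha : a = f
  · rw [ha, pj_f e f κ hf hef]
    unfold pj
    rw [if_pos (by omega), if_pos (by omega), if_neg (fun h => hef h.symm), if_neg (by omega)]
    rfl
  · have h3 : 3 ∉ pj e f κ a := fun h => ha (pj_3 h)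
    rw [dl_id 3 _ h3]
    unfold pj
    by_cases h1 : a % 3 = 0
    · rw [if_pos h1, if_pos h1]
      by_cases h2 : a < 42
      · rw [if_pos h2, if_pos h2]
        by_cases h4 : a = e
        · rw [if_pos h4, if_pos h4]
        · rw [if_neg h4, if_neg h4, if_neg ha, if_neg (by omega)]
      · rw [if_neg h2, if_neg h2]
    · rw [if_neg h1, if_neg h1]

theorem dl0_pj (e f : ℕ) (κ : ℕ → ℕ) (he : e = 0 ∨ e = 3 ∨ e = 6) (hf : f = 0 ∨ f = 3 ∨ f = 6)
    (hef : e ≠ f) (a : ℕ) : dl 0 (pj e f κ a) = (pj f 1 κ a).flatMap r03 := by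
  by_cases ha : a = f
  · rw [ha, pj_f e f κ hf hef, pj_e f 1 κ hf]
    rfl
  · by_cases hb : a = e
    · rw [hb, pj_e e f κ he]
      unfold pj
      rw [if_pos (by omega), if_pos (by omega), if_neg hef, if_neg (by omega)]
      rfl
    · unfold pj
      by_cases h1 : a % 3 = 0
      · rw [if_pos h1, if_pos h1]
        by_cases h2 : a < 42
        · rw [if_pos h2, if_pos h2, if_neg hb, if_neg ha, if_neg ha, if_neg (by omega)]
          rfl
        · rw [if_neg h2, if_neg h2]
          by_cases h3 : κ (3 * (a / 21)) = a / 3 % 7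
          · rw [if_pos h3, dl_id 0 _ (by rw [List.mem_singleton]; omega),
              r03_id _ (by rw [List.mem_singleton]; omega)]
          · rw [if_neg h3]
            rfl
      · rw [if_neg h1, if_neg h1]
        by_cases h2 : a % 3 = 1
        · rw [if_pos h2]
          by_cases h3 : κ (3 * (a / 21) + 1) = a / 3 % 7
          · rw [if_pos h3, dl_id 0 _ (by rw [List.mem_singleton]; omega),
              r03_id _ (by rw [List.mem_singleton]; omega)]
          · rw [if_neg h3]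
            rfl
        · rw [if_neg h2, dl_id 0 _ (by rw [List.mem_singleton]; omega),
            r03_id _ (by rw [List.mem_singleton]; omega)]

theorem core (hNes : NesStmt) (hThx : ThxStmt) (hPjb : PjbStmt) (hTg2 : Tg2Stmt)
    (n m : ℕ) (R c : List ℕ) (B : ℕ → List ℕ) (t : List ℕ) (e f : ℕ) (S : S7 n β m R c)
    (hB : ∀ r, SFr (B r)) (ht : SFr t)
    (hloc : ∀ a ∈ Bw (R7 R) B ++ t, a % 3 = 0 → a = 0 ∨ a = 3 ∨ a = 6 ∨ 42 ≤ a)
    (he : e = 0 ∨ e = 3 ∨ e = 6) (hf : f = 0 ∨ f = 3 ∨ f = 6) (hef : e ≠ f)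
    (hK : Kp n β R c (fun a => a = e ∨ a = f) (Bw (R7 R) B ++ t))
    (p p' U q' q : List ℕ) (hB0 : B 0 = p ++ f :: (p' ++ e :: (U ++ e :: (q' ++ f :: q))))
    (κ : ℕ → ℕ) (hκ : ∀ d < m, κ (3 * d + 1) < 7) (A C A2 : List ℕ) (hc : c = A ++ (C ++ A2))
    (hnd : nd C < nd c) (h1 : (Lw 1 1 c).flatMap (pj e 1 κ) = 0 :: (c ++ [0]))
    (h2 : (Lw 1 1 c).flatMap (pj f 1 κ) = A ++ 0 :: (C ++ 0 :: A2)) : False := by
  obtain ⟨b1, b2, -⟩ := hPjb e f κ
  obtain ⟨hPl, hTh⟩ := hThx n β m R c κ S.cn S.pR hκ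
  have hSt : St n β m (R7 R) (plk κ) c :=
    { wo := S.wo, lt := S.lt, h2 := S.h2, fl := S.fl, cn := S.cn, m1 := S.m1, k2 := S.k2,
      pc := hPl, no := fun h => S.no (hTh h) }
  obtain ⟨cf, nf, tf, -⟩ := hTg2 n β m R c B t f S hB ht hloc hf
    (fun a ha κ' => hK a (Or.inr ha) κ')
  have c0 : ∀ a ∈ c, a ≠ 0 := by
    intro a ha
    rcases S.cn.lo a ha with ⟨d, -, h⟩ | ⟨-, h⟩
    · omega
    · omega
  -- the projected word
  have eV : ∀ (x y : ℕ), (sh n (Bw (R7 R) B ++ t)).flatMap (pj x y κ) =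
      Bw (R7 R) (fun r => (sh n (B r)).flatMap (pj x y κ)) ++ (sh n t).flatMap (pj x y κ) := by
    intro x y
    rw [sh_app, sh_bw]
    exact (hPjb x y κ).1 (R7 R) (fun r => sh n (B r)) (sh n t)
  -- first identity
  have i1 := hK e (Or.inl rfl) κ
  have i1' : RR β (Bp (R7 R) (plk κ) (0 :: (c ++ [0])))
      (Bw (R7 R) (fun r => dl 3 ((sh n (B r)).flatMap (pj e f κ))) ++
        dl 3 ((sh n t).flatMap (pj e f κ))) := by
    unfold Ww at i1
    rw [(hPjb e 1 κ).2.2, h1, eV] at i1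
    have e1 : ∀ w : List ℕ, dl 3 (w.flatMap (pj e f κ)) = w.flatMap (pj e 1 κ) := by
      intro w
      rw [dl_flat]
      exact List.flatMap_congr (fun a _ => dl3_pj e f κ hf hef a)
    simp only [e1]
    exact i1
  -- second identity
  have i2 := (hK f (Or.inr rfl) κ).sub r03
  have i2' : RR β (Bp (R7 R) (plk κ) (A ++ 3 :: (C ++ 3 :: A2)))
      (Bw (R7 R) (fun r => dl 0 ((sh n (B r)).flatMap (pj e f κ))) ++
        dl 0 ((sh n t).flatMap (pj e f κ))) := by
    unfold Ww at i2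
    rw [(hPjb f 1 κ).2.2, h2, eV, List.flatMap_append] at i2
    have e1 : ∀ w : List ℕ, dl 0 (w.flatMap (pj e f κ)) = (w.flatMap (pj f 1 κ)).flatMap r03 := by
      intro w
      rw [dl_flat, List.flatMap_assoc]
      exact List.flatMap_congr (fun a _ => dl0_pj e f κ he hf hef a)
    simp only [e1]
    have hr : ∀ r, r03 (3 * r + 2) = [3 * r + 2] := by
      intro r
      unfold r03
      rw [if_neg (by omega)]
    rw [bw_flat r03 hr] at i2
    have e2 : (Bp (R7 R) (plk κ) (A ++ 0 :: (C ++ 0 :: A2))).flatMap r03 =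
        Bp (R7 R) (plk κ) (A ++ 3 :: (C ++ 3 :: A2)) := by
      unfold Bp
      rw [bw_flat r03 hr]
      refine bw_ext _ _ _ (fun r _ => ?_)
      by_cases h0 : r = 0
      · rw [if_pos h0, if_pos h0]
        have hA : 0 ∉ A := fun h => c0 0 (by rw [hc]; simp [h]) rfl
        have hC : 0 ∉ C := fun h => c0 0 (by rw [hc]; simp [h]) rfl
        have hA2 : 0 ∉ A2 := fun h => c0 0 (by rw [hc]; simp [h]) rfl
        rw [List.flatMap_append, List.flatMap_cons, List.flatMap_append, List.flatMap_cons,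
          r03_id A hA, r03_id C hC, r03_id A2 hA2]
        rfl
      · rw [if_neg h0, if_neg h0]
        refine r03_id _ ?_
        unfold plk
        split_ifs
        · rw [List.mem_singleton]; omega
        · simp
    rw [e2] at i2
    exact i2
  -- no `3` outside block `0`
  have n3 : ∀ w : List ℕ, f ∉ w → 3 ∉ (sh n w).flatMap (pj e f κ) := by
    intro w hw h
    rw [List.mem_flatMap] at h
    obtain ⟨a, ha, h'⟩ := h
    exact hw ((pj_3 h') ▸ sh_mem ha)
  have hcnt := cf
  rw [hB0] at hcnt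
  simp only [List.count_append, List.count_cons, beq_self_eq_true, if_true] at hcnt
  have np : f ∉ p := fun h => by
    have := List.count_pos_iff.2 h
    omega
  have np' : f ∉ p' := fun h => by
    have := List.count_pos_iff.2 h
    omega
  have nU : f ∉ U := fun h => by
    have := List.count_pos_iff.2 h
    omega
  have nq' : f ∉ q' := fun h => by
    have := List.count_pos_iff.2 h
    omega
  have nq : f ∉ q := fun h => by
    have := List.count_pos_iff.2 h
    omega
  have sfV : ∀ w : List ℕ, SFr w → SFr ((sh n w).flatMap (pj e f κ)) := by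
    intro w hw
    refine b2 (sh n w) ?_
    intro a ha
    exact hw a (sh_mem ha)
  refine hNes n β m (R7 R) (plk κ) c A C A2 (fun r => (sh n (B r)).flatMap (pj e f κ))
    ((sh n t).flatMap (pj e f κ)) hSt hc hnd (fun r => sfV _ (hB r)) (sfV _ ht) i1' i2'
    (fun r hr hr0 => n3 _ (nf r hr hr0)) (n3 _ tf) ((sh n p).flatMap (pj e f κ))
    ((sh n p').flatMap (pj e f κ)) ((sh n U).flatMap (pj e f κ)) ((sh n q').flatMap (pj e f κ))
    ((sh n q).flatMap (pj e f κ)) ?_ (n3 _ np) (n3 _ np') (n3 _ nU) (n3 _ nq') (n3 _ nq)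
  rw [hB0, sh_app, sh_cons_lt n f _ (by omega), sh_app, sh_cons_lt n e _ (by omega), sh_app,
    sh_cons_lt n e _ (by omega), sh_app, sh_cons_lt n f _ (by omega), List.flatMap_append,
    List.flatMap_cons, List.flatMap_append, List.flatMap_cons, List.flatMap_append,
    List.flatMap_cons, List.flatMap_append, List.flatMap_cons, pj_e e f κ he, pj_f e f κ hf hef]
  rfl

/-- row TG3 -/
theorem tg3 (hNes : NesStmt) (_hFun : FunStmt) (hThx : ThxStmt) (hPjb : PjbStmt)
    (hPjl : PjlStmt) (_hPer : PerStmt) (hSpc : SpcStmt) (hTg2 : Tg2Stmt) : Tg3Stmt := by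
  intro n β m R c B t e f S hB ht hloc he hf hef hK p p' U q' q hB0
  obtain ⟨s1, s2⟩ := hSpc n m c S.cn S.m1
  obtain ⟨-, le2, le3⟩ := hPjl n m c e S.cn he
  obtain ⟨-, lf2, lf3⟩ := hPjl n m c f S.cn hf
  have hpo : po e < po f ∨ po f < po e := by
    rcases he with rfl | rfl | rfl <;> rcases hf with rfl | rfl | rfl <;>
      first | exact absurd rfl hef | decide
  have hpe : po e ≤ 3 := by rcases he with rfl | rfl | rfl <;> decide
  have hpf : po f ≤ 3 := by rcases hf with rfl | rfl | rfl <;> decide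
  rcases hpo with hlt | hlt
  · obtain ⟨A, C, hc, hAC, hnd⟩ := s1
    refine core hNes hThx hPjb hTg2 n m R c B t e f S hB ht hloc he hf hef hK p p' U q' q hB0
      (fun a => if a ∈ A then po e else 3) (fun d _ => ?_) A C [] (by rw [List.append_nil]; exact hc)
      hnd ?_ ?_
    · split_ifs <;> omega
    · rw [le2 A C (po e) hc hAC (by omega), if_pos le_rfl]
    · rw [lf2 A C (po e) hc hAC (by omega), if_neg (by omega)]
  · obtain ⟨C, A, hc, hAC, hnd⟩ := s2
    refine core hNes hThx hPjb hTg2 n m R c B t e f S hB ht hloc he hf hef hK p p' U q' q hB0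
      (fun a => if a ∈ A then po f + 4 else 3) (fun d _ => ?_) [] C A hc hnd ?_ ?_
    · split_ifs <;> omega
    · rw [le3 C A (po f + 4) hc hAC (by omega) (by omega), if_pos (by omega)]
    · rw [lf3 C A (po f + 4) hc hAC (by omega) (by omega), if_neg (by omega)]
      rfl

end Pool.Agent.MWT.H96
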